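import Pool.Agent.H285.Defs
import Pool.Agent.H285.AW33
import Pool.Agent.H285.AW36
import Pool.Agent.H285.AW42

/-!
# Both colours visit the origin infinitely often if and only if `p = 1/2` (MP_0e9fac_pr)

The model is defined in `Pool/Agent/H285/Defs.lean`: the law `law d p` of the colours, holding times
and directions of all particles, the event driven system `alive` of the particles which start in a
finite set, and the infinite system `Holds` as the limit of the systems in the boxes `[-n, n]^d`.
The theorem `wellDefined` shows that this limit exists almost surely, simultaneously for all times.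
-/

open MeasureTheory ProbabilityTheory Filter Topology
open Pool.Agent.H285

namespace Pool.Agent.Results.MP_0e9fac_pr.BothColoursIffHalf

/-- The infinite system is well defined: almost surely, for each time interval `[0, T]` and each
site, the numbers of the particles of both colours at the site during the whole of `[0, T]` are the
same in all large boxes (`fieldc c w Λ b t (ind x)` is the number of the particles of colour `b` at
`x` at time `t` in the system `Λ`). -/
theorem wellDefined (d : ℕ) (hd : 1 ≤ d) (p : ℝ) (hp : p ∈ Set.Icc (0 : ℝ) 1) :
    ∀ᵐ ω ∂(law d p), ∀ (T : ℝ) (x : Site d), ∃ M0 : ℕ, ∀ M, M0 ≤ M → ∀ t : ℝ, 0 ≤ t → t ≤ T →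
      ∀ b : Bool, fieldc ω.1 ω.2 (box d M) b t (ind x) =
        fieldc ω.1 ω.2 (box d M0) b t (ind x) := by
  haveI : NeZero d := ⟨by omega⟩
  exact stable d hp

/-- **Theorem.** In every dimension `d ≥ 1`:
(i) for `p = 1/2`, almost surely the origin is visited infinitely many times by red particles and
infinitely many times by blue particles;
(ii) for every `p > 1/2`, almost surely the origin is visited only finitely many times by blue
particles; in particular it is not almost surely true that both colours visit the origin infinitely
many times. -/
theorem result : ∀ d : ℕ, 1 ≤ d →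
    (∀ᵐ ω ∂(law d (1 / 2)), InfOften ω true ∧ InfOften ω false) ∧
    (∀ p : ℝ, 1 / 2 < p → p < 1 →
      (∀ᵐ ω ∂(law d p), ¬ InfOften ω false) ∧
      ¬ (∀ᵐ ω ∂(law d p), InfOften ω true ∧ InfOften ω false)) := by
  intro d hd
  haveI : NeZero d := ⟨by omega⟩
  refine ⟨(final_half d true).and (final_half d false), fun p hp hp1 => ?_⟩
  have h := final_blue d hp hp1
  refine ⟨h, fun h2 => ?_⟩
  haveI := prob_law d (p := p) ⟨by linarith, hp1.le⟩
  obtain ⟨ω, h3, h4⟩ := (h.and h2).exists
  exact h3 h4.2

end Pool.Agent.Results.MP_0e9fac_pr.BothColoursIffHalf
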